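import Pool.Agent.H7.GV.Stmts

set_option autoImplicit false

open Finset

namespace Pool.GV7

open Pool.Agent.H23.KT Pool.Agent.H46.KW Pool.KQ Pool.GT7 Pool.GU7

private lemma GGP9_deg {V : Type} [DecidableEq V] (G : SimpleGraph V) (p a : ℕ) (e C : ℝ)
    (W : Finset V) (P : Fin (p + 3) → Finset V) (U : Finset V) (hS : Str G p a e C W P U)
    (x : V) (i : Fin (p + 3)) (hx : x ∈ P i) :
    ((p : ℝ) + 2) * ((1 - e - e1 p) * a) ≤ ((nb G W x).card : ℝ) := by
  classical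
  have hsub : (univ.erase i).biUnion (fun l => P l \ non G (P l) x) ⊆ nb G W x := by
    intro y hy
    obtain ⟨l, hl, hy⟩ := mem_biUnion.1 hy
    obtain ⟨hy1, hy2⟩ := mem_sdiff.1 hy
    rw [mem_nb]
    refine ⟨(hS.cov y).2 (Or.inr ⟨l, hy1⟩), ?_⟩
    by_contra hn
    exact hy2 (by unfold non; exact mem_filter.2 ⟨hy1, hn⟩)
  have hdis : ((univ.erase i : Finset (Fin (p + 3))) : Set (Fin (p + 3))).PairwiseDisjoint
      (fun l => P l \ non G (P l) x) := by
    intro l _ l' _ hll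
    exact (hS.par.dis l l' hll).mono sdiff_subset sdiff_subset
  have hcard := card_le_card hsub
  rw [card_biUnion (fun l hl l' hl' hll => hdis hl hl' hll)] at hcard
  have h1 : ∀ l ∈ univ.erase i, (1 - e - e1 p) * (a : ℝ) ≤ ((P l \ non G (P l) x).card : ℝ) := by
    intro l hl
    have h2 : non G (P l) x ⊆ P l := by unfold non; exact filter_subset _ _
    have h3 := card_sdiff_add_card_eq_card h2
    have h4 : ((P l \ non G (P l) x).card : ℝ) + ((non G (P l) x).card : ℝ) = ((P l).card : ℝ) := by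
      exact_mod_cast h3
    have h5 := hS.lo l
    have h6 := hS.mis i x hx l (ne_of_mem_erase hl)
    linarith
  have h7 : ((univ.erase i).card : ℝ) * ((1 - e - e1 p) * (a : ℝ)) ≤
      ∑ l ∈ univ.erase i, ((P l \ non G (P l) x).card : ℝ) := by
    rw [← nsmul_eq_mul]
    exact card_nsmul_le_sum _ _ _ h1
  have h8 : ((univ.erase i).card : ℝ) = (p : ℝ) + 2 := by
    rw [card_erase_of_mem (mem_univ _), card_univ, Fintype.card_fin]
    push_cast [show p + 3 - 1 = p + 2 by omega]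
    ring
  have h9 : (∑ l ∈ univ.erase i, ((P l \ non G (P l) x).card : ℝ)) ≤ ((nb G W x).card : ℝ) := by
    exact_mod_cast hcard
  rw [h8] at h7
  linarith

private lemma GGP9_big (p C₁ : ℕ) (c : ℝ) (hc : 0 < c) :
    ∃ a₀ : ℕ, 1 ≤ a₀ ∧ ∀ a ≥ a₀,
      (1 - c) * ((a : ℝ) + 1) ^ (p + 3) * ((a : ℝ) + C₁) ≤ (a : ℝ) ^ (p + 4) := by
  have h1 : Filter.Tendsto (fun a : ℕ => (1 - c) * ((1 + 1 / (a : ℝ)) ^ (p + 3) *
      (1 + (C₁ : ℝ) / (a : ℝ)))) Filter.atTop (nhds ((1 - c) * ((1 + 0) ^ (p + 3) * (1 + 0)))) := by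
    refine Filter.Tendsto.const_mul _ (Filter.Tendsto.mul (Filter.Tendsto.pow ?_ _) ?_)
    · exact Filter.Tendsto.const_add _ (tendsto_const_div_atTop_nhds_zero_nat 1)
    · exact Filter.Tendsto.const_add _ (tendsto_const_div_atTop_nhds_zero_nat _)
  have h2 : (1 - c) * ((1 + 0) ^ (p + 3) * (1 + 0)) < (1 : ℝ) := by
    simp only [add_zero, one_pow, mul_one]
    linarith
  have h3 := (h1.eventually (gt_mem_nhds h2)).and (Filter.eventually_ge_atTop 1)
  obtain ⟨a₀, ha₀⟩ := Filter.eventually_atTop.1 h3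
  refine ⟨max a₀ 1, le_max_right _ _, fun a ha => ?_⟩
  obtain ⟨h4, h5⟩ := ha₀ a (le_of_max_le_left ha)
  have ha : (0 : ℝ) < a := by exact_mod_cast h5
  have h6 : (1 - c) * ((a : ℝ) + 1) ^ (p + 3) * ((a : ℝ) + C₁) =
      (1 - c) * ((1 + 1 / (a : ℝ)) ^ (p + 3) * (1 + (C₁ : ℝ) / (a : ℝ))) * (a : ℝ) ^ (p + 4) := by
    have h7 : (a : ℝ) + 1 = (1 + 1 / (a : ℝ)) * a := by field_simp
    have h8 : (a : ℝ) + C₁ = (1 + (C₁ : ℝ) / (a : ℝ)) * a := by field_simp
    rw [h7, h8, mul_pow, pow_succ (a : ℝ) (p + 3)]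
    ring
  rw [h6]
  have h9 : (0 : ℝ) < (a : ℝ) ^ (p + 4) := by positivity
  nlinarith

theorem GGP9_thm (hSTG : Pool.KR.STGStmt) : GGP9Stmt := by
  intro p w r hP
  obtain ⟨c, hc0, hc1, e₀, he0, he1, hstg⟩ := hSTG p 1 one_pos
  refine ⟨e₀, he0, he1, fun C C₁ => ?_⟩
  obtain ⟨a₁, ha₁⟩ := hstg C
  obtain ⟨a₂, ha21, ha₂⟩ := GGP9_big p C₁ c hc0
  refine ⟨a₁ + a₂ + r, ?_⟩
  intro a ha V _ _ G hG e hee he v z P P' U U' hS hS' hz hk
  have hp2 : 2 ≤ p := by
    have := hP.r2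
    have := hP.rb
    omega
  have hrp : r ≤ p + 2 := by
    have := hP.rb
    omega
  have hpR : (2 : ℝ) ≤ p := by exact_mod_cast hp2
  have har : (r : ℝ) ≤ a := by
    have : r ≤ a := by omega
    exact_mod_cast this
  have ha1 : (1 : ℝ) ≤ a := by
    have : 1 ≤ a := by omega
    exact_mod_cast this
  have hGG : Pool.KR.GG G p a := ⟨hG.cb, fun v => (hG.deg v).trans (by omega)⟩
  -- the number of cliques
  have hbal : (bal (p + 3) ((p + 3) * a + (p + 2)) : ℝ) ≤ ((a : ℝ) + 1) ^ (p + 3) := by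
    have h1 : bal (p + 3) ((p + 3) * a + (p + 2)) ≤ bal (p + 3) ((p + 3) * (a + 1)) :=
      bal_mono (by omega) (by ring_nf; omega)
    rw [bal_mul_self (by omega)] at h1
    exact_mod_cast h1
  have hkc : (1 - c) * (bal (p + 3) ((p + 3) * a + (p + 2)) : ℝ) ≤
      kc G (nb G univ z) (p + 3) := by
    have h1 := ha₂ a (by omega)
    have h2 : (a : ℝ) ^ (p + 4) ≤ ((a : ℝ) + C₁) * kc G (nb G univ z) (p + 3) := by
      exact_mod_cast hk
    have h3 : (1 - c) * ((a : ℝ) + 1) ^ (p + 3) ≤ kc G (nb G univ z) (p + 3) := by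
      have h4 : (0 : ℝ) < (a : ℝ) + C₁ := by
        have : (0 : ℝ) ≤ C₁ := Nat.cast_nonneg _
        linarith
      have h5 : ((1 - c) * ((a : ℝ) + 1) ^ (p + 3)) * ((a : ℝ) + C₁) ≤
          (kc G (nb G univ z) (p + 3) : ℝ) * ((a : ℝ) + C₁) := by linarith
      exact le_of_mul_le_mul_right h5 h4
    have h6 := mul_le_mul_of_nonneg_left hbal (by linarith : (0 : ℝ) ≤ 1 - c)
    linarith
  have hco : ((Pool.KR.co G v z).card : ℝ) ≤ 1 * a :=
    ha₁ a (by omega) G hGG v e P U hS hee he z hz hkc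
  rw [one_mul] at hco
  -- numbers
  have he1' : e1 p ≤ 1 / (16 * ((p : ℝ) + 3) ^ 3) := le_of_eq rfl
  have hsm : ((p : ℝ) + 2) * e1 p ≤ 1 / 16 := by
    unfold e1
    rw [mul_one_div, div_le_div_iff₀ (by positivity) (by norm_num)]
    nlinarith [sq_nonneg (p : ℝ), mul_nonneg (by linarith : (0 : ℝ) ≤ p) (sq_nonneg (p : ℝ))]
  have hpe : ((p : ℝ) + 2) * e ≤ ((p : ℝ) + 2) * e1 p :=
    mul_le_mul_of_nonneg_left (he.trans he1) (by linarith)
  have hdeg : ((p : ℝ) + 2 - 1 / 8) * a ≤ ((p : ℝ) + 2) * ((1 - e - e1 p) * a) := by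
    have h1 : ((p : ℝ) + 2) * ((1 - e - e1 p) * a) =
        ((p : ℝ) + 2 - ((p : ℝ) + 2) * e - ((p : ℝ) + 2) * e1 p) * a := by ring
    rw [h1]
    exact mul_le_mul_of_nonneg_right (by linarith) (by linarith)
  have hzv : z ∈ nb G univ v := (hS.cov z).2 (Or.inl hz)
  have hadj : G.Adj v z := ((mem_nb G).1 hzv).2
  constructor
  · intro x hx
    by_contra hxU
    rw [mem_union, not_or] at hxU
    obtain ⟨hx1, hx2⟩ := (mem_nb G).1 hx
    have hvx : G.Adj v x := ((mem_nb G).1 hx1).2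
    have hx3 : x ∈ nb G univ z := (mem_nb G).2 ⟨mem_univ _, hx2⟩
    obtain ⟨i, hi⟩ := ((hS.cov x).1 hx1).resolve_left hxU.1
    obtain ⟨k, hk'⟩ := ((hS'.cov x).1 hx3).resolve_left hxU.2
    have h1 := GGP9_deg G p a e C _ P U hS x i hi
    have h2 := GGP9_deg G p a e C _ P' U' hS' x k hk'
    have h3 : nb G (nb G univ v) x ∪ nb G (nb G univ z) x ⊆ nb G univ x := by
      intro y hy
      refine (mem_nb G).2 ⟨mem_univ _, ?_⟩
      rcases mem_union.1 hy with h | h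
      · exact ((mem_nb G).1 h).2
      · exact ((mem_nb G).1 h).2
    have h4 : nb G (nb G univ v) x ∩ nb G (nb G univ z) x ⊆ Pool.KR.co G v z := by
      intro y hy
      obtain ⟨hy1, hy2⟩ := mem_inter.1 hy
      exact (mem_nb G).2 ⟨((mem_nb G).1 hy1).1, ((mem_nb G).1 ((mem_nb G).1 hy2).1).2⟩
    have h5 := card_union_add_card_inter (nb G (nb G univ v) x) (nb G (nb G univ z) x)
    have h6 := card_le_card h3
    have h7 := card_le_card h4
    have h8 := hG.deg x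
    have h9 : ((nb G (nb G univ v) x).card : ℝ) + ((nb G (nb G univ z) x).card : ℝ) ≤
        (((p : ℝ) + 3) * a + r) + (Pool.KR.co G v z).card := by
      have h10 : (nb G (nb G univ v) x).card + (nb G (nb G univ z) x).card ≤
          ((p + 3) * a + r) + (Pool.KR.co G v z).card := by omega
      exact_mod_cast h10
    nlinarith
  · have hvz : v ∈ nb G univ z := (mem_nb G).2 ⟨mem_univ _, hadj.symm⟩
    rcases (hS'.cov v).1 hvz with h | ⟨k, hk'⟩
    · exact h
    · exfalso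
      have h2 := GGP9_deg G p a e C _ P' U' hS' v k hk'
      have h3 : nb G (nb G univ z) v ⊆ Pool.KR.co G v z := by
        intro y hy
        obtain ⟨hy1, hy2⟩ := (mem_nb G).1 hy
        exact (mem_nb G).2 ⟨(mem_nb G).2 ⟨mem_univ _, hy2⟩, ((mem_nb G).1 hy1).2⟩
      have h4 : ((nb G (nb G univ z) v).card : ℝ) ≤ (Pool.KR.co G v z).card := by
        exact_mod_cast card_le_card h3
      nlinarith

end Pool.GV7
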